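import Pool.Agent.Y95.KM.Mv
import Pool.Agent.Y95.KM.Contr

/-!
# The two cone conjectures for finite quotients of products of klt Calabi–Yau pairs

Let `(X i, Δ i)` be `ℚ`-factorial klt Calabi–Yau pairs, `P` their product, `G` a finite group of
automorphisms of `(P, Δ_P)` and `Y = P/G` (the quotient may be ramified in codimension one, and the
boundary `Δ_Y` is defined by `K_P + Δ_P = π^*(K_Y + Δ_Y)`).

(a) If the nef cone conjecture holds for the factors with the groups `Aut(X i, Δ i)`, then it holds for
`Y`, and for every contraction `V` of `Y`, birational or not, with the group `Aut(V)`.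

(b) If the movable cone conjecture holds for the factors with the groups `PsAut(X i, Δ i)`, then it
holds for `Y`.
-/

set_option autoImplicit false

namespace Pool.Agent.Results.MP_ad47bb_ag.PairQuotients

open Pool.Agent.Y95.KM

theorem result {ι : Type} [Fintype ι] {W : ι → Type} [∀ i, NormedAddCommGroup (W i)]
    [∀ i, NormedSpace ℝ (W i)]
    {W₁ : Type} [NormedAddCommGroup W₁] [NormedSpace ℝ W₁] (q : W₁ →ₗ[ℝ] (∀ i, W i))
    -- the automorphism groups, and the groups of pseudo-automorphisms, of the factors, of `P`, of `Y`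
    {A A' : ι → Type} [∀ i, Group (A i)] [∀ i, Group (A' i)]
    {B B' : Type} [Group B] [Group B'] {B₁ B₁' : Type} [Group B₁] [Group B₁']
    -- the nef data and the movable data
    (X : ∀ i, Num (W i) (A i)) (X' : ∀ i, MvNum (W i) (A' i))
    (P : Num (∀ i, W i) B) (P' : MvNum (∀ i, W i) B')
    (Y : Num W₁ B₁) (Y' : MvNum W₁ B₁')
    (hX : ∀ i, (X i).Good) (hX' : ∀ i, (X' i).Good)
    (hP : P.Good) (hP' : P'.Good) (hY : Y.Good) (hY' : Y'.Good)
    (hprod : Num.IsProduct X P) (hprod' : MvNum.IsProduct X' P')
    (hker : P.AbelianKernel) (hker' : P'.AbelianKernel)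
    -- the finite group, as a group of automorphisms and of pseudo-automorphisms
    (G : Subgroup B) (G' : Subgroup B') [Finite G] [Finite G']
    (hquot : P.IsQuotient G Y q) (hquot' : P'.IsQuotient G' Y' q)
    -- a contraction of `Y`
    {W₂ B₂ : Type} [NormedAddCommGroup W₂] [NormedSpace ℝ W₂] [Group B₂]
    (V : Num W₂ B₂) (hV : V.Good) (r : W₂ →ₗ[ℝ] W₁) (hcontr : Y.IsContraction V r) :
    ((∀ i, (X i).ConeConj) → Y.ConeConj ∧ V.ConeConj) ∧
    ((∀ i, (X' i).ConeConj) → Y'.ConeConj) :=
  ⟨fun hc => ⟨descend hP hker hY hquot (product hX hP hprod hc),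
      contract hY hV hcontr (descend hP hker hY hquot (product hX hP hprod hc))⟩,
    fun hc => MvNum.descend hP' hker' hY' hquot' (MvNum.product hX' hP' hprod' hc)⟩

end Pool.Agent.Results.MP_ad47bb_ag.PairQuotients
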