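import Pool.Agent.Y95.KM.Idx

/-!
# The strong form of the cone conjecture

Let `(X, Δ)` be a klt Calabi–Yau pair. The strong form of (a) is the statement with the subgroup
`Aut(X, Δ)` in place of `Aut(X)`, the strong form of (b) is the statement with `PsAut(X, Δ)` in
place of `PsAut(X)`. It is known that the strong forms imply (a) and (b).

Theorem: for every subgroup `H` of `Aut(X)`, there is a rational polyhedral fundamental domain for `H`
on the nef effective cone if and only if (a) holds and the image of `H` in the group of automorphisms
of `N^1(X)` has finite index in the image of `Aut(X)`. In the same way for (b) and subgroups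
of `PsAut(X)`.

So the difference between the strong forms and (a), (b) is exactly the finiteness of the index. For
instance, if the strong form of (a) holds for two boundaries `Δ` and `Δ'` on `X`, then the images of
`Aut(X, Δ)` and `Aut(X, Δ')` are commensurable; and if it holds for `Δ`, then it holds for `Δ'` if and
only if the image of `Aut(X, Δ')` has finite index in the image of `Aut(X)`.

Proof: let `S` generate a rational polyhedral cone whose `H`-translates cover the nef effective cone,
and let `ξ` be an integral form which is positive on the nef cone. By Dickson's lemma there are
finitely many automorphisms `t` such that for every `w` in the cone generated by `S` the minimal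
degree `ξ` on the orbit of `w` under the full group is attained at some `t w`. If `y` is ample and `a`
is an automorphism, some `h` in `H` brings `a y` into the cone, and then `t h a y` has degree at most
`ξ y`; there are only finitely many possibilities for the action of `t h a`. The converse is an
application of a theorem of Looijenga.
-/

set_option autoImplicit false

namespace Pool.Agent.Results.MP_ad47bb_ag.StrongForms

open Pool.Agent.Y95.KM

theorem result {W A B : Type*} [NormedAddCommGroup W] [NormedSpace ℝ W] [Group A] [Group B]
    -- `N^1(X)` with the ample and effective classes and the action of `Aut(X)`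
    (X : Num W A) (hX : X.Good)
    -- `N^1(X)` with the movable and effective classes and the action of `PsAut(X)`
    (Y : MvNum W B) (hY : Y.Good)
    -- subgroups, such as `Aut(X, Δ)` and `PsAut(X, Δ)`
    (H : Subgroup A) (K : Subgroup B) :
    ((X.restrict H).ConeConj ↔ X.ConeConj ∧
      ∃ R : Finset A, ∀ a, ∃ b ∈ H, ∃ r ∈ R, X.act a = X.act (b * r)) ∧
    ((Y.restrict K).ConeConj ↔ Y.ConeConj ∧
      ∃ R : Finset B, ∀ a, ∃ b ∈ K, ∃ r ∈ R, Y.act a = Y.act (b * r)) :=
  ⟨restrict_iff hX H, MvNum.restrict_iff hY K⟩

end Pool.Agent.Results.MP_ad47bb_ag.StrongForms
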