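import Pool.Agent.Y167.CCMain
import Mathlib.Topology.MetricSpace.HausdorffDimension

set_option autoImplicit false

/-!
# The cone conjecture for pairs on quotients of complex tori by finite groups

Let `X = V / Γ` be a projective quotient of a complex torus (an abelian variety) by any finite group,
of any dimension. The group may contain reflections, so that `K_X` need not be trivial. Let `Δ` be an
effective divisor with real coefficients on `X` such that `K_X + Δ` is numerically trivial. The theorem
says that (a) `Aut(X)`, and also `Aut(X, Δ)`, acts on the cone `Nef^e(X)` with a rational polyhedral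
fundamental domain, and (b) `PsAut(X)`, and also `PsAut(X, Δ)`, acts on the cone `Mov^e(X)` with a
rational polyhedral fundamental domain.

The proof: the Chern forms of line bundles are invariant hermitian forms, and they are given by
self-adjoint elements of the algebra of endomorphisms of the torus which commute with the finite group.
Reduction theory (a version of Voronoi's theory of perfect forms for an order in a real algebra with a
positive involution) covers the positive definite forms by the translates, under the units of the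
order, of the cone spanned by finitely many integral semidefinite forms. Units in a subgroup of finite
index extend to affine automorphisms of `V` which normalise `Γ` and move points only in directions
parallel to all mirrors of `Γ`. The Chern form of `K_X` vanishes in these directions, hence so do the
Chern forms of the components of `Δ`, whose sections are then invariant by Liouville's theorem.
Effective classes are semidefinite, and a semidefinite rational invariant form is the class of a base
point free line bundle, by a construction with products of theta functions; hence the cones `Nef^e(X)`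
and `Mov^e(X)` are equal. A Dirichlet domain of a rational linear form with trivial stabiliser is a
fundamental domain.

`latt`, `IsTorusQuotient` and `LineBundle` are defined in `Pool.Agent.W594.SYZ.Defs2`; `IsChernForm`
and `IsPositiveForm` in `Pool.Agent.W594.SYZ.TQDefs`; `IsRamification` and `IsLogPluricanonical` in
`Pool.Agent.TH735.AQ.MirDefs`; `AffGrp`, `IsClass`, `EffDiv`, `NumTrivial` and `Normalizes` in
`Pool.Agent.Y167.Defs`; `LinGrp`, `Preserves`, `IsFundDomain`, `N1`, `form`, `integral`, `nefCone`,
`effCone` and `IsPullback` in `Pool.Agent.Y167.Stm`; `cone` in `Pool.Agent.Y167.ConeDef`. In the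
absolute case the linear subspace `E` of `V` of the general definitions is `V` itself, embedded by the
identity map.
-/

namespace Pool.Agent.Results.MP_ad47bb_ag.TorusCones

open Pool.Agent.W594.SYZ2 Pool.Agent.TH735.AQ
open Pool.Agent.Y167 (AffGrp EffDiv IsClass NumTrivial Normalizes cone rel_abs)
open Pool.Agent.Y167.CC

variable {V : Type*} [NormedAddCommGroup V] [NormedSpace ℂ V] {Γ : AffGrp V}

/-- The space `N^1(X)`. -/
abbrev NS (Γ : AffGrp V) : Type _ := N1 Γ (LinearMap.id : V →ₗ[ℂ] V)

/-- The cone `Nef^e(X)` of nef and effective classes. -/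
def nefEff (Γ : AffGrp V) : Set (NS Γ) := nefCone Γ LinearMap.id ∩ effCone Γ LinearMap.id

/-- The classes of movable divisors: the base locus of `L` (its preimage in `V`) is empty, or its
Hausdorff dimension, which is twice its complex dimension, is at most `2 dim V - 4`. -/
def movable (Γ : AffGrp V) : Set (NS Γ) :=
  {x | ∃ (L : LineBundle Γ) (B : Set V), IsClass LinearMap.id L (form x) ∧
    B = {v | ∀ s, L.IsSection s → s v = 0} ∧ (B = ∅ ∨ dimH B + 4 ≤ 2 * Module.finrank ℂ V)}

/-- The cone spanned by the classes of movable divisors. -/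
def movCone (Γ : AffGrp V) : Set (NS Γ) :=
  {x | ∃ S : Finset (NS Γ), ↑S ⊆ movable Γ ∧ x ∈ cone S}

/-- The cone `Mov^e(X)`: the effective classes in the closure of the cone spanned by the classes of
movable divisors. -/
def movEff (Γ : AffGrp V) : Set (NS Γ) := closure (movCone Γ) ∩ effCone Γ LinearMap.id

/-- `𝒢` contains the pullbacks `f^*` by all automorphisms of `X` which are induced by affine
transformations `f` of `V` and map `Δ` to itself. -/
def ContainsAff {ι : Type*} [Fintype ι] (Δ : EffDiv Γ ι) (𝒢 : LinGrp (NS Γ)) : Prop :=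
  ∀ f : V ≃ᵃ[ℂ] V, Normalizes Γ f → (∀ v, Δ.mul (f v) = Δ.mul v) → ∀ g, IsPullback f g → g ∈ 𝒢

/-- `𝒢` is a group of linear automorphisms of `N^1(X)` which preserves the integral classes and the
cone `Nef^e(X)` and which contains the pullbacks by the affine automorphisms which preserve `Δ`. The
images of `Aut(X)` and of `Aut(X, Δ)` have these properties. -/
structure IsAutGroup {ι : Type*} [Fintype ι] (Δ : EffDiv Γ ι) (𝒢 : LinGrp (NS Γ)) : Prop where
  int : Preserves 𝒢 (integral Γ LinearMap.id)
  nef_eff : Preserves 𝒢 (nefEff Γ)
  aff : ContainsAff Δ 𝒢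

/-- `𝒢` is a group of linear automorphisms of `N^1(X)` which preserves a lattice `M` (the classes of
Weil divisors) such that `M` contains the integral classes and `k M` consists of integral classes for
some `k ≥ 1`, which preserves the cone `Mov^e(X)`, and which contains the pullbacks by the affine
automorphisms which preserve `Δ`. The images of `PsAut(X)` and of `PsAut(X, Δ)` have these
properties. -/
structure IsPsAutGroup {ι : Type*} [Fintype ι] (Δ : EffDiv Γ ι) (𝒢 : LinGrp (NS Γ)) : Prop where
  lattice : ∃ (M : AddSubgroup (NS Γ)) (k : ℕ), 0 < k ∧ integral Γ LinearMap.id ⊆ M ∧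
    (∀ x ∈ M, (k : ℝ) • x ∈ integral Γ LinearMap.id) ∧ Preserves 𝒢 M
  mov : Preserves 𝒢 (movEff Γ)
  aff : ContainsAff Δ 𝒢

/-- Let `X = V / Γ` be a projective torus quotient and `Δ` an effective divisor with real coefficients
on `X` such that `K_X + Δ` is numerically trivial. Then (a) there is a rational polyhedral cone which
is a fundamental domain for the action of `𝒢` on `Nef^e(X)`, if `𝒢` is the image of `Aut(X)` or of
`Aut(X, Δ)`, and (b) there is a rational polyhedral cone which is a fundamental domain for the action
of `𝒢` on `Mov^e(X)`, if `𝒢` is the image of `PsAut(X)` or of `PsAut(X, Δ)`. -/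
theorem result {V : Type*} [NormedAddCommGroup V] [NormedSpace ℂ V] [FiniteDimensional ℂ V]
    (Γ : AffGrp V) (hΓ : IsTorusQuotient Γ)
    (hproj : ∃ (L : LineBundle Γ) (H : V → V → ℂ), IsChernForm L H ∧ IsPositiveForm H)
    {ι : Type*} [Fintype ι] (Δ : EffDiv Γ ι) (hΔ : NumTrivial Δ (LinearMap.id : V →ₗ[ℂ] V)) :
    (∀ 𝒢 : LinGrp (NS Γ), IsAutGroup Δ 𝒢 →
      ∃ S : Finset (NS Γ), ↑S ⊆ integral Γ LinearMap.id ∧ cone S ⊆ nefEff Γ ∧
        IsFundDomain 𝒢 (nefEff Γ) (cone S)) ∧
    (∀ 𝒢 : LinGrp (NS Γ), IsPsAutGroup Δ 𝒢 →
      ∃ S : Finset (NS Γ), ↑S ⊆ integral Γ LinearMap.id ∧ cone S ⊆ movEff Γ ∧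
        IsFundDomain 𝒢 (movEff Γ) (cone S)) := by
  obtain ⟨L, H, hc, hp⟩ := hproj
  have R := rel_abs hΓ hc hp
  refine ⟨fun 𝒢 h𝒢 => core_int R Δ hΔ 𝒢 h𝒢.int h𝒢.nef_eff
    (fun f hf _ hf3 g hg => h𝒢.aff f hf hf3 g hg), fun 𝒢 h𝒢 => ?_⟩
  have hmov : movEff Γ = nefEff Γ := by
    apply Set.Subset.antisymm
    · exact fun x hx => ⟨eff_nef hΓ hx.2, hx.2⟩
    · refine fun x hx => ⟨subset_closure ?_, hx.2⟩
      refine nefEff_sub_span R (P := movable Γ) ?_ hx
      intro y L hL hs
      refine ⟨L, _, hL, rfl, Or.inl ?_⟩
      rw [Set.eq_empty_iff_forall_notMem]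
      intro v hv
      obtain ⟨s, hs1, hs2⟩ := hs v
      exact hs2 (hv s hs1)
  obtain ⟨M, k, hk, hM1, hM2, hM3⟩ := h𝒢.lattice
  have hN : Preserves 𝒢 (nefEff Γ) := hmov ▸ h𝒢.mov
  rw [hmov]
  refine core R Δ hΔ M hk (fun x hx => ?_) hM2 𝒢 hM3 hN
    (fun f hf _ hf3 g hg => h𝒢.aff f hf hf3 g hg)
  rw [Nat.cast_smul_eq_nsmul]
  exact M.nsmul_mem (hM1 hx) k

end Pool.Agent.Results.MP_ad47bb_ag.TorusCones
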